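import Mathlib
import Pool.Agent.W533.LP.Stm

set_option autoImplicit false

namespace Pool.Agent.W154.LP

open MeasureTheory ProbabilityTheory Pool.Agent.W533.LP

/-- Exponential moments of a geometric variable. -/
theorem geo_exp {Ω : Type} [MeasurableSpace Ω] (μ : Measure Ω) [IsProbabilityMeasure μ]
    (X : Ω → ℕ) (hX : Measurable X) (a θ : ℝ) (ha : 0 ≤ a) (ha1 : a < 1)
    (law : ∀ k, μ.real {ω | X ω = k} = (1 - a) * a ^ k) (h : a * Real.exp θ < 1) :
    Integrable (fun ω => Real.exp (θ * (X ω : ℝ))) μ ∧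
      ∫ ω, Real.exp (θ * (X ω : ℝ)) ∂μ = (1 - a) / (1 - a * Real.exp θ) := by
  have hν : ∀ k, (μ.map X) {k} = ENNReal.ofReal ((1 - a) * a ^ k) := by
    intro k
    rw [Measure.map_apply hX (measurableSet_singleton k), ← law k]
    rw [ofReal_measureReal]
    rfl
  have hterm : ∀ k : ℕ, Real.exp (θ * k) * ((1 - a) * a ^ k) = (1 - a) * (a * Real.exp θ) ^ k := by
    intro k
    rw [mul_pow, ← Real.exp_nat_mul, mul_comm θ]
    ring
  have hpos : 0 ≤ a * Real.exp θ := mul_nonneg ha (Real.exp_pos _).le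
  have hsum : HasSum (fun k : ℕ => (1 - a) * (a * Real.exp θ) ^ k)
      ((1 - a) * (1 - a * Real.exp θ)⁻¹) :=
    (hasSum_geometric_of_lt_one hpos h).mul_left _
  have hl : ∫⁻ ω, ENNReal.ofReal (Real.exp (θ * (X ω : ℝ))) ∂μ =
      ENNReal.ofReal ((1 - a) * (1 - a * Real.exp θ)⁻¹) := by
    have e1 : ∫⁻ ω, ENNReal.ofReal (Real.exp (θ * (X ω : ℝ))) ∂μ =
        ∫⁻ k, ENNReal.ofReal (Real.exp (θ * (k : ℝ))) ∂(μ.map X) := by
      rw [lintegral_map (measurable_from_top) hX]
    rw [e1, lintegral_countable', ← hsum.tsum_eq,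
      ENNReal.ofReal_tsum_of_nonneg (fun k => mul_nonneg (by linarith) (pow_nonneg hpos k))
        hsum.summable]
    refine tsum_congr (fun k => ?_)
    rw [hν, ← ENNReal.ofReal_mul (Real.exp_pos _).le, hterm]
  have hm : AEStronglyMeasurable (fun ω => Real.exp (θ * (X ω : ℝ))) μ := by
    have : Measurable (fun ω => Real.exp (θ * (X ω : ℝ))) := by
      have h1 : Measurable (fun k : ℕ => Real.exp (θ * (k : ℝ))) := measurable_from_top
      exact h1.comp hX
    exact this.aestronglyMeasurable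
  refine ⟨⟨hm, ?_⟩, ?_⟩
  · rw [hasFiniteIntegral_iff_ofReal (Filter.Eventually.of_forall (fun ω => (Real.exp_pos _).le)), hl]
    exact ENNReal.ofReal_lt_top
  · rw [integral_eq_lintegral_of_nonneg_ae (Filter.Eventually.of_forall
      (fun ω => (Real.exp_pos _).le)) hm, hl, ENNReal.toReal_ofReal]
    · rw [div_eq_mul_inv]
    · exact mul_nonneg (by linarith) (inv_nonneg.2 (by linarith))

theorem geo_bound (a θ M : ℝ) (ha : 0 ≤ a) (ha1 : a < 1) (hM : 1 ≤ M) (haM : mean a ≤ M)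
    (hθ : |θ| ≤ 1 / (4 * M)) :
    a * Real.exp θ < 1 ∧ (1 - a) / (1 - a * Real.exp θ) ≤
      Real.exp (mean a * θ + 9 * M ^ 2 * θ ^ 2) := by
  have hm0 : 0 ≤ mean a := div_nonneg ha (by linarith)
  have hM0 : 0 < M := by linarith
  have hθ1 : |θ| ≤ 1 := by
    refine hθ.trans ?_
    rw [div_le_one (by positivity)]
    linarith
  have h1 := Real.abs_exp_sub_one_sub_id_le hθ1
  have h2 := Real.abs_exp_sub_one_le hθ1
  set e := Real.exp θ - 1 with he
  set u := mean a * e with hu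
  have hMθ : M * |θ| ≤ 1 / 4 := by
    calc M * |θ| ≤ M * (1 / (4 * M)) := mul_le_mul_of_nonneg_left hθ hM0.le
      _ = 1 / 4 := by field_simp
  have hue : |u| ≤ 2 * (mean a * |θ|) := by
    rw [hu, abs_mul, abs_of_nonneg hm0]
    nlinarith
  have hu1 : |u| ≤ 1 / 2 := by
    have : mean a * |θ| ≤ M * |θ| := mul_le_mul_of_nonneg_right haM (abs_nonneg _)
    linarith
  have hu2 : u ≤ 1 / 2 := (abs_le.1 hu1).2
  have hma : mean a * (1 - a) = a := by
    unfold mean
    exact div_mul_cancel₀ a (by linarith)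
  have hden : 1 - a * Real.exp θ = (1 - a) * (1 - u) := by
    have : Real.exp θ = 1 + e := by rw [he]; ring
    rw [this, hu]
    linear_combination e * hma
  have h1a : 0 < 1 - a := by linarith
  have h1u : 0 < 1 - u := by linarith
  refine ⟨?_, ?_⟩
  · have : 0 < 1 - a * Real.exp θ := by rw [hden]; positivity
    linarith
  · rw [hden, div_mul_eq_div_div, div_self h1a.ne', div_le_iff₀ h1u]
    have hexp : 1 + (u + 2 * u ^ 2) ≤ Real.exp (mean a * θ + 9 * M ^ 2 * θ ^ 2) := by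
      have hle : u + 2 * u ^ 2 ≤ mean a * θ + 9 * M ^ 2 * θ ^ 2 := by
        have i1 : e ≤ θ + θ ^ 2 := by
          have := (abs_le.1 h1).2
          rw [he]; linarith
        have i2 : u ≤ mean a * θ + mean a * θ ^ 2 := by
          rw [hu, ← mul_add]
          exact mul_le_mul_of_nonneg_left i1 hm0
        have i3 : u ^ 2 ≤ 4 * (mean a) ^ 2 * θ ^ 2 := by
          have := sq_le_sq' (by linarith [abs_nonneg u, neg_abs_le u]) (le_trans (le_abs_self u) hue)
          have e4 : (2 * (mean a * |θ|)) ^ 2 = 4 * (mean a) ^ 2 * θ ^ 2 := by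
            rw [mul_pow, mul_pow, sq_abs]; ring
          rwa [e4] at this
        have i4 : mean a * θ ^ 2 ≤ M ^ 2 * θ ^ 2 := by
          refine mul_le_mul_of_nonneg_right ?_ (sq_nonneg _)
          nlinarith
        have i5 : (mean a) ^ 2 * θ ^ 2 ≤ M ^ 2 * θ ^ 2 := by
          refine mul_le_mul_of_nonneg_right ?_ (sq_nonneg _)
          nlinarith
        nlinarith
      calc 1 + (u + 2 * u ^ 2) ≤ 1 + (mean a * θ + 9 * M ^ 2 * θ ^ 2) := by linarith
        _ ≤ _ := by
          have := Real.add_one_le_exp (mean a * θ + 9 * M ^ 2 * θ ^ 2)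
          linarith
    have hkey : 1 ≤ (1 + (u + 2 * u ^ 2)) * (1 - u) := by
      have : (1 + (u + 2 * u ^ 2)) * (1 - u) = 1 + u ^ 2 * (1 - 2 * u) := by ring
      rw [this]
      have : 0 ≤ u ^ 2 * (1 - 2 * u) := mul_nonneg (sq_nonneg _) (by linarith)
      linarith
    exact hkey.trans (mul_le_mul_of_nonneg_right hexp h1u.le)

theorem pChern : PChern := by
  intro A hA
  set B := max A 0 with hB
  have hB0 : 0 ≤ B := le_max_right _ _
  have hB1 : B < 1 := max_lt hA one_pos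
  set M := mean B + 1 with hMdef
  have hmB : 0 ≤ mean B := div_nonneg hB0 (by linarith)
  have hM1 : 1 ≤ M := by linarith
  have hM0 : 0 < M := by linarith
  refine ⟨1 / (36 * M ^ 2), by positivity, ?_⟩
  intro Ω _ μ a n X x hn hx hxn haA hF
  have hn0 : (0 : ℝ) < n := by exact_mod_cast hn
  have i0 : Fin n := ⟨0, by omega⟩
  have := hF.prob
  obtain ⟨ha0, ha1⟩ := hF.pos i0
  have haB : a ≤ B := haA.trans (le_max_left _ _)
  have haM : mean a ≤ M := by
    have : mean a ≤ mean B := by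
      unfold mean
      rw [div_le_div_iff₀ (by linarith) (by linarith)]
      nlinarith
    rw [hMdef]
    linarith
  set t := x / (18 * M ^ 2 * n) with ht
  have ht0 : 0 ≤ t := by positivity
  have ht1 : t ≤ 1 / (4 * M) := by
    rw [ht, div_le_div_iff₀ (by positivity) (by positivity)]
    have b1 : x * M ≤ n * M := mul_le_mul_of_nonneg_right hxn hM0.le
    have b2 : (n : ℝ) * M ≤ n * M * M := le_mul_of_one_le_right (by positivity) hM1
    have b3 : 0 ≤ (n : ℝ) * M * M := by positivity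
    calc x * (4 * M) = 4 * (x * M) := by ring
      _ ≤ 4 * (n * M * M) := by linarith
      _ ≤ 18 * (n * M * M) := by linarith
      _ = 1 * (18 * M ^ 2 * n) := by ring
  have habs : ∀ s : ℝ, (s = t ∨ s = -t) → |s| ≤ 1 / (4 * M) := by
    rintro s (rfl | rfl)
    · rwa [abs_of_nonneg ht0]
    · rwa [abs_neg, abs_of_nonneg ht0]
  set Y : Fin n → Ω → ℝ := fun i ω => (X i ω : ℝ) with hY
  have hYm : ∀ i, Measurable (Y i) := by
    intro i
    have h1 : Measurable (fun k : ℕ => (k : ℝ)) := measurable_from_top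
    exact h1.comp (hF.meas i)
  have hYi : iIndepFun Y μ :=
    hF.indep.comp (fun _ (k : ℕ) => (k : ℝ)) (fun _ => measurable_from_top)
  have hgeo : ∀ s : ℝ, (s = t ∨ s = -t) → ∀ i,
      Integrable (fun ω => Real.exp (s * Y i ω)) μ ∧
        mgf (Y i) μ s ≤ Real.exp (mean a * s + 9 * M ^ 2 * s ^ 2) := by
    intro s hs i
    obtain ⟨hb1, hb2⟩ := geo_bound a s M ha0 ha1 hM1 haM (habs s hs)
    obtain ⟨hg1, hg2⟩ := geo_exp μ (X i) (hF.meas i) a s ha0 ha1 (hF.law i) hb1
    refine ⟨hg1, ?_⟩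
    unfold mgf
    rw [hY]
    simp only
    rw [hg2]
    exact hb2
  have hsum : ∀ s : ℝ, (s = t ∨ s = -t) →
      Integrable (fun ω => Real.exp (s * (∑ i, Y i) ω)) μ ∧
        mgf (∑ i, Y i) μ s ≤ Real.exp (n * (mean a * s + 9 * M ^ 2 * s ^ 2)) := by
    intro s hs
    refine ⟨hYi.integrable_exp_mul_sum hYm (fun i _ => (hgeo s hs i).1), ?_⟩
    rw [hYi.mgf_sum hYm]
    calc ∏ i, mgf (Y i) μ s ≤ ∏ _i : Fin n, Real.exp (mean a * s + 9 * M ^ 2 * s ^ 2) :=
          Finset.prod_le_prod (fun i _ => mgf_nonneg) (fun i _ => (hgeo s hs i).2)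
      _ = _ := by
          rw [Finset.prod_const, Finset.card_univ, Fintype.card_fin, ← Real.exp_nat_mul]
  have hfin : -(t * x) + n * (9 * M ^ 2 * t ^ 2) = -(1 / (36 * M ^ 2)) * x ^ 2 / n := by
    rw [ht]
    field_simp
    ring
  refine ⟨?_, ?_⟩
  · have h1 := measure_ge_le_exp_mul_mgf (μ := μ) (X := ∑ i, Y i) (n * mean a + x) ht0
      (hsum t (Or.inl rfl)).1
    have e1 : {ω | (n : ℝ) * mean a + x ≤ ∑ i, (X i ω : ℝ)} =
        {ω | (n : ℝ) * mean a + x ≤ (∑ i, Y i) ω} := by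
      ext ω
      simp [hY, Finset.sum_apply]
    rw [e1]
    refine h1.trans ?_
    refine (mul_le_mul_of_nonneg_left (hsum t (Or.inl rfl)).2 (Real.exp_pos _).le).trans ?_
    rw [← Real.exp_add, Real.exp_le_exp, ← hfin]
    apply le_of_eq
    ring
  · have h1 := measure_le_le_exp_mul_mgf (μ := μ) (X := ∑ i, Y i) (n * mean a - x)
      (neg_nonpos.2 ht0) (hsum (-t) (Or.inr rfl)).1
    have e1 : {ω | ∑ i, (X i ω : ℝ) ≤ (n : ℝ) * mean a - x} =
        {ω | (∑ i, Y i) ω ≤ (n : ℝ) * mean a - x} := by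
      ext ω
      simp [hY, Finset.sum_apply]
    rw [e1]
    refine h1.trans ?_
    refine (mul_le_mul_of_nonneg_left (hsum (-t) (Or.inr rfl)).2 (Real.exp_pos _).le).trans ?_
    rw [← Real.exp_add, Real.exp_le_exp, ← hfin]
    apply le_of_eq
    ring

end Pool.Agent.W154.LP
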